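import Pool.Agent.Q107.Cater.Tree

/-!
# The caterpillar: bounds for the broadcast parameters
-/

set_option autoImplicit false

namespace Q107.Cater

open SimpleGraph Finset Q107.Broadcast

/-! ### the upper broadcast number -/

lemma pos_inr {M : ℕ} (m : Fin (4 * M)) :
    pos (Sum.inr m : Vx M) = 4 * (m.val / 2) + 3 * (m.val % 2) := rfl

lemma lf_inr {M : ℕ} (m : Fin (4 * M)) : lf (Sum.inr m : Vx M) = 1 := rfl

/-- the broadcast of weight `10 M` -/
def bc {M : ℕ} : Vx M → ℕ
  | Sum.inl _ => 0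
  | Sum.inr m => if m.val % 4 = 1 ∨ m.val % 4 = 2 then 5 else 0

lemma sum_bc (M : ℕ) : ∑ v : Vx M, bc v = 10 * M := by
  rw [Fintype.sum_sum_type]
  simp only [bc, sum_const_zero, zero_add]
  rw [Fin.sum_univ_eq_sum_range (fun m => if m % 4 = 1 ∨ m % 4 = 2 then 5 else 0)]
  induction M with
  | zero => simp
  | succ M ih =>
    rw [show 4 * (M + 1) = 4 * M + 1 + 1 + 1 + 1 by ring, sum_range_succ, sum_range_succ,
      sum_range_succ, sum_range_succ, ih]
    have h0 : (4 * M) % 4 = 0 := by omega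
    have h1 : (4 * M + 1) % 4 = 1 := by omega
    have h2 : (4 * M + 1 + 1) % 4 = 2 := by omega
    have h3 : (4 * M + 1 + 1 + 1) % 4 = 3 := by omega
    rw [h0, h1, h2, h3]
    simp
    ring

lemma bc_pos {M : ℕ} {v : Vx M} (h : 0 < bc v) :
    ∃ m : Fin (4 * M), v = Sum.inr m ∧ (m.val % 4 = 1 ∨ m.val % 4 = 2) ∧ bc v = 5 := by
  cases v with
  | inl i => simp [bc] at h
  | inr m =>
    refine ⟨m, rfl, ?_, ?_⟩
    · by_contra h'
      simp only [bc, if_neg h'] at h
      omega
    · by_cases h' : m.val % 4 = 1 ∨ m.val % 4 = 2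
      · simp only [bc, if_pos h']
      · simp only [bc, if_neg h'] at h
        omega

lemma bc_min {M : ℕ} : IsMinDominating (cat M) (bc (M := M)) := by
  have hpriv : ∀ v : Vx M, 0 < bc v → ∃ x, (cat M).dist x v = 5 ∧ Priv (cat M) bc v x := by
    intro v hv
    obtain ⟨m, rfl, hm, h5⟩ := bc_pos hv
    have hmlt := m.isLt
    have hx : ∃ m' : Fin (4 * M), (m.val % 4 = 1 ∧ m'.val + 1 = m.val) ∨
        (m.val % 4 = 2 ∧ m'.val = m.val + 1) := by
      rcases hm with hm | hm
      · exact ⟨⟨m.val - 1, by omega⟩, Or.inl ⟨hm, by change m.val - 1 + 1 = m.val; omega⟩⟩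
      · exact ⟨⟨m.val + 1, by omega⟩, Or.inr ⟨hm, rfl⟩⟩
    obtain ⟨m', hm'⟩ := hx
    have hd : (cat M).dist (Sum.inr m') (Sum.inr m) = 5 := by
      rw [cat_dist, pos_inr, pos_inr, lf_inr, lf_inr]
      unfold dd
      split_ifs <;> omega
    refine ⟨Sum.inr m', hd, ?_, ?_, ?_⟩
    · rw [hd, h5]
    · intro w hw hw0
      obtain ⟨k, rfl, hk, hk5⟩ := bc_pos hw0
      rw [hk5, cat_dist, pos_inr, pos_inr, lf_inr, lf_inr]
      have hne : k.val ≠ m.val := fun h => hw (congrArg Sum.inr (Fin.ext h))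
      unfold dd
      split_ifs <;> omega
    · right
      rw [hd, h5]
  apply min_of_priv
  · intro v
    rcases Nat.eq_zero_or_pos (bc v) with h | h
    · rw [h]
      exact Nat.zero_le _
    · obtain ⟨x, hx, _⟩ := hpriv v h
      obtain ⟨m, _, _, h5⟩ := bc_pos h
      rw [h5, ← hx]
      exact dist_le_ecc x v
  · intro u
    have hu := pos_lt u
    have hl := lf_le u
    -- the broadcasting leaf of the block of `u`
    have hk : ∃ k : Fin (4 * M), k.val / 2 = pos u / 4 ∧ (k.val % 4 = 1 ∨ k.val % 4 = 2) := by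
      rcases Nat.mod_two_eq_zero_or_one (pos u / 4) with h | h
      · exact ⟨⟨2 * (pos u / 4) + 1, by omega⟩, by
          change (2 * (pos u / 4) + 1) / 2 = pos u / 4 ∧ _
          refine ⟨by omega, Or.inl ?_⟩
          change (2 * (pos u / 4) + 1) % 4 = 1
          omega⟩
      · exact ⟨⟨2 * (pos u / 4), by omega⟩, by
          change (2 * (pos u / 4)) / 2 = pos u / 4 ∧ _
          refine ⟨by omega, Or.inr ?_⟩
          change (2 * (pos u / 4)) % 4 = 2
          omega⟩
    obtain ⟨k, hk1, hk2⟩ := hk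
    have h5 : bc (Sum.inr k : Vx M) = 5 := by
      simp only [bc, if_pos hk2]
    refine ⟨Sum.inr k, by rw [h5]; norm_num, ?_⟩
    rw [h5, cat_dist]
    have hp : pos (Sum.inr k : Vx M) = 4 * (k.val / 2) + 3 * (k.val % 2) := rfl
    have hl2 : lf (Sum.inr k : Vx M) = 1 := rfl
    rw [hp, hl2]
    unfold dd
    split_ifs <;> omega
  · intro v hv
    obtain ⟨x, _, hx⟩ := hpriv v hv
    exact ⟨x, hx⟩

/-! ### the boundary independence number -/

/-- the tokens of spine edges -/
def tokA {M : ℕ} (f : Vx M → ℕ) (v : Vx M) : Finset ℕ :=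
  (range (8 * M - 1)).filter fun j =>
    dd j 0 (pos v) (lf v) ≤ f v ∧ dd (j + 1) 0 (pos v) (lf v) ≤ f v

/-- the tokens of leaf edges -/
def tokB {M : ℕ} (f : Vx M → ℕ) (v : Vx M) : Finset ℕ :=
  (range (4 * M)).filter fun m =>
    dd (4 * (m / 2) + 3 * (m % 2)) 1 (pos v) (lf v) ≤ f v ∧
      dd (4 * (m / 2) + 3 * (m % 2)) 0 (pos v) (lf v) ≤ f v

/-- the ball of `v` reaches over the position `0` -/
def tokC {M : ℕ} (f : Vx M → ℕ) (v : Vx M) : ℕ := if dd 0 0 (pos v) (lf v) < f v then 1 else 0

/-- the ball of `v` reaches over the last position -/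
def tokD {M : ℕ} (f : Vx M → ℕ) (v : Vx M) : ℕ :=
  if dd (8 * M - 1) 0 (pos v) (lf v) < f v then 1 else 0

lemma two_mul_le {M : ℕ} {f : Vx M → ℕ} {v : Vx M} (hv : 0 < f v)
    (he : f v ≤ 8 * M + 1) :
    2 * f v ≤ (tokA f v).card + 2 * (tokB f v).card + 3 * tokC f v + 3 * tokD f v := by
  have hl := lf_le v
  have hp := pos_lt v
  set p := pos v with hpdef
  set l := lf v with hldef
  set r := f v with hr
  -- spine edges
  have hA : min (p + (r - l)) (8 * M - 1) - (p - (r - l)) ≤ (tokA f v).card := by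
    rw [← Nat.card_Ico]
    apply card_le_card
    intro j hj
    rw [mem_Ico] at hj
    unfold tokA
    rw [mem_filter, mem_range, ← hpdef, ← hldef, ← hr]
    refine ⟨by omega, ?_, ?_⟩
    · unfold dd
      split_ifs <;> omega
    · unfold dd
      split_ifs <;> omega
  have hleft : p < r - l → p + (r - l) ≤ 8 * M - 1 → (p + (r - l)) / 2 ≤ (tokB f v).card := by
    intro h1 h2
    rw [← card_range ((p + (r - l)) / 2)]
    apply card_le_card
    intro m hm
    rw [mem_range] at hm
    unfold tokB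
    rw [mem_filter, mem_range, ← hpdef, ← hldef, ← hr]
    refine ⟨by omega, ?_, ?_⟩
    · unfold dd
      split_ifs <;> omega
    · unfold dd
      split_ifs <;> omega
  have hright : r - l ≤ p → 8 * M - 1 < p + (r - l) →
      4 * M - 1 - (p - (r - l)) / 2 ≤ (tokB f v).card := by
    intro h1 h2
    have : 4 * M - 1 - (p - (r - l)) / 2 = (Ico ((p - (r - l)) / 2 + 1) (4 * M)).card := by
      rw [Nat.card_Ico]
      omega
    rw [this]
    apply card_le_card
    intro m hm
    rw [mem_Ico] at hm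
    unfold tokB
    rw [mem_filter, mem_range, ← hpdef, ← hldef, ← hr]
    refine ⟨by omega, ?_, ?_⟩
    · unfold dd
      split_ifs <;> omega
    · unfold dd
      split_ifs <;> omega
  have hboth : p < r - l → 8 * M - 1 < p + (r - l) → 4 * M ≤ (tokB f v).card := by
    intro h1 h2
    rw [← card_range (4 * M)]
    apply card_le_card
    intro m hm
    rw [mem_range] at hm
    unfold tokB
    rw [mem_filter, mem_range, ← hpdef, ← hldef, ← hr]
    refine ⟨by omega, ?_, ?_⟩
    · unfold dd
      split_ifs <;> omega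
    · unfold dd
      split_ifs <;> omega
  have hown : l = 1 → 1 ≤ (tokB f v).card := by
    intro h1
    rw [Nat.one_le_iff_ne_zero, Ne, card_eq_zero, ← Ne, ← nonempty_iff_ne_empty]
    cases hv' : v with
    | inl i =>
      rw [hv'] at hldef
      simp [lf] at hldef
      omega
    | inr m =>
      refine ⟨m.val, ?_⟩
      unfold tokB
      rw [mem_filter, mem_range]
      have h2 : pos (Sum.inr m : Vx M) = 4 * (m.val / 2) + 3 * (m.val % 2) := rfl
      have h3 : lf (Sum.inr m : Vx M) = 1 := rfl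
      rw [h2, h3]
      have h4 : 0 < f (Sum.inr m) := by rw [← hv']; exact hv
      refine ⟨m.isLt, ?_, ?_⟩
      · unfold dd
        split_ifs <;> omega
      · unfold dd
        split_ifs <;> omega
  have hC : p < r - l → tokC f v = 1 := by
    intro h1
    unfold tokC
    rw [← hpdef, ← hldef, ← hr, if_pos]
    unfold dd
    split_ifs <;> omega
  have hD : 8 * M - 1 < p + (r - l) → tokD f v = 1 := by
    intro h1
    unfold tokD
    rw [← hpdef, ← hldef, ← hr, if_pos]
    unfold dd
    split_ifs <;> omega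
  by_cases h1 : p < r - l
  · rw [hC h1]
    by_cases h2 : 8 * M - 1 < p + (r - l)
    · rw [hD h2]
      have := hboth h1 h2
      omega
    · have := hleft h1 (by omega)
      omega
  · by_cases h2 : 8 * M - 1 < p + (r - l)
    · rw [hD h2]
      have := hright (by omega) h2
      omega
    · rcases Nat.lt_or_ge l 1 with h3 | h3
      · omega
      · have := hown (by omega)
        omega

end Q107.Cater
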