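import Pool.Agent.Q107.Cater.Bounds

/-!
# The caterpillar: the upper bound for bn-independent broadcasts
-/

set_option autoImplicit false

namespace Q107.Cater

open SimpleGraph Finset Q107.Broadcast

lemma ecc_cat {M : ℕ} (v : Vx M) : ecc (cat M) v ≤ 8 * M + 1 := by
  apply ecc_le
  intro u
  rw [cat_dist]
  have h1 := pos_lt u
  have h2 := pos_lt v
  have h3 := lf_le u
  have h4 := lf_le v
  unfold dd
  split_ifs <;> omega

lemma sum_ind_le {ι : Type} [Fintype ι] [DecidableEq ι] (P : Finset ι) (p : ι → Prop)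
    [DecidablePred p] (h : ∀ u ∈ P, ∀ v ∈ P, p u → p v → u = v) :
    ∑ v ∈ P, (if p v then 1 else 0) ≤ 1 := by
  rw [← card_filter, card_le_one]
  intro a ha b hb
  rw [mem_filter] at ha hb
  exact h a ha.1 b hb.1 ha.2 hb.2

lemma bn_le {M : ℕ} (hM : 0 < M) {f : Vx M → ℕ} (hb : IsBroadcast (cat M) f)
    (hf : IsBnIndep (cat M) f) : ∑ v, f v ≤ 8 * M + 2 := by
  classical
  let P : Finset (Vx M) := univ.filter fun v => 0 < f v
  have hP : ∀ v, v ∈ P ↔ 0 < f v := fun v => by
    change v ∈ univ.filter _ ↔ _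
    rw [mem_filter]
    exact ⟨fun h => h.2, fun h => ⟨mem_univ _, h⟩⟩
  have hsum : ∑ v, f v = ∑ v ∈ P, f v := by
    symm
    apply sum_subset (subset_univ _)
    intro v _ hv
    rw [hP] at hv
    omega
  -- the value of the distance at a coordinate pair
  have hin : ∀ (j : ℕ) (hj : j < 8 * M) (v : Vx M),
      (cat M).dist (Sum.inl ⟨j, hj⟩) v = dd j 0 (pos v) (lf v) := fun j hj v => cat_dist _ _
  have hir : ∀ (m : ℕ) (hm : m < 4 * M) (v : Vx M),
      (cat M).dist (Sum.inr ⟨m, hm⟩) v = dd (4 * (m / 2) + 3 * (m % 2)) 1 (pos v) (lf v) :=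
    fun m hm v => cat_dist _ _
  have hA : ∑ v ∈ P, (tokA f v).card ≤ 8 * M - 1 := by
    rw [← card_biUnion]
    · rw [← card_range (8 * M - 1)]
      apply card_le_card
      intro j hj
      rw [mem_biUnion] at hj
      obtain ⟨v, _, hj⟩ := hj
      exact (mem_filter.1 hj).1
    · intro u hu v hv huv
      change Disjoint (tokA f u) (tokA f v)
      rw [Finset.disjoint_left]
      intro j hju hjv
      unfold tokA at hju hjv
      rw [mem_filter, mem_range] at hju hjv
      have h1 := hf u v ((hP u).1 hu) ((hP v).1 hv) huv (Sum.inl ⟨j, by omega⟩)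
        (by rw [hin]; exact hju.2.1) (by rw [hin]; exact hjv.2.1)
      have h2 := hf u v ((hP u).1 hu) ((hP v).1 hv) huv (Sum.inl ⟨j + 1, by omega⟩)
        (by rw [hin]; exact hju.2.2) (by rw [hin]; exact hjv.2.2)
      rw [hin, hin] at h1 h2
      have h3 := h1.1.trans h2.1.symm
      have h4 := lf_le u
      unfold dd at h3
      split_ifs at h3 <;> omega
  have hB : ∑ v ∈ P, (tokB f v).card ≤ 4 * M := by
    rw [← card_biUnion]
    · rw [← card_range (4 * M)]
      apply card_le_card
      intro j hj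
      rw [mem_biUnion] at hj
      obtain ⟨v, _, hj⟩ := hj
      exact (mem_filter.1 hj).1
    · intro u hu v hv huv
      change Disjoint (tokB f u) (tokB f v)
      rw [Finset.disjoint_left]
      intro m hmu hmv
      unfold tokB at hmu hmv
      rw [mem_filter, mem_range] at hmu hmv
      have h1 := hf u v ((hP u).1 hu) ((hP v).1 hv) huv (Sum.inr ⟨m, by omega⟩)
        (by rw [hir]; exact hmu.2.1) (by rw [hir]; exact hmv.2.1)
      have h2 := hf u v ((hP u).1 hu) ((hP v).1 hv) huv
        (Sum.inl ⟨4 * (m / 2) + 3 * (m % 2), by omega⟩)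
        (by rw [hin]; exact hmu.2.2) (by rw [hin]; exact hmv.2.2)
      rw [hir, hir] at h1
      rw [hin, hin] at h2
      have h3 := h1.1.trans h2.1.symm
      have h4 := lf_le u
      unfold dd at h3
      split_ifs at h3 <;> omega
  have hC : ∑ v ∈ P, tokC f v ≤ 1 := by
    apply sum_ind_le
    intro u hu v hv h1 h2
    by_contra huv
    have h3 := hf u v ((hP u).1 hu) ((hP v).1 hv) huv (Sum.inl ⟨0, by omega⟩)
      (by rw [hin]; exact h1.le) (by rw [hin]; exact h2.le)
    rw [hin, hin] at h3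
    omega
  have hD : ∑ v ∈ P, tokD f v ≤ 1 := by
    apply sum_ind_le
    intro u hu v hv h1 h2
    by_contra huv
    have h3 := hf u v ((hP u).1 hu) ((hP v).1 hv) huv (Sum.inl ⟨8 * M - 1, by omega⟩)
      (by rw [hin]; exact h1.le) (by rw [hin]; exact h2.le)
    rw [hin, hin] at h3
    omega
  have hall : ∑ v ∈ P, 2 * f v ≤ ∑ v ∈ P,
      ((tokA f v).card + 2 * (tokB f v).card + 3 * tokC f v + 3 * tokD f v) :=
    sum_le_sum fun v hv => two_mul_le ((hP v).1 hv) ((hb v).trans (ecc_cat v))
  rw [sum_add_distrib, sum_add_distrib, sum_add_distrib, ← mul_sum, ← mul_sum, ← mul_sum,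
    ← mul_sum] at hall
  rw [hsum]
  omega

end Q107.Cater
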