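import Pool.Agent.Q107.Broadcast.Basic
import Pool.Agent.Q107.Bn.Spanning

/-!
# A caterpillar with large upper broadcast number and small boundary independence number

The spine has the positions `0, ..., 8 M - 1`; there is one leaf at every position that is
`0, 3, 4` or `7` modulo `8`.
-/

set_option autoImplicit false

namespace Q107.Cater

open SimpleGraph Finset Q107.Broadcast

/-- spine vertices and leaves -/
abbrev Vx (M : ℕ) : Type := Fin (8 * M) ⊕ Fin (4 * M)

/-- the position of a vertex on the spine -/
def pos {M : ℕ} : Vx M → ℕ
  | Sum.inl i => i.val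
  | Sum.inr m => 4 * (m.val / 2) + 3 * (m.val % 2)

/-- `1` for leaves, `0` for spine vertices -/
def lf {M : ℕ} : Vx M → ℕ
  | Sum.inl _ => 0
  | Sum.inr _ => 1

/-- the distance of vertices with given coordinates -/
def dd (p a q b : ℕ) : ℕ :=
  if p = q then (a - b) + (b - a) else (p - q) + (q - p) + a + b

/-- the caterpillar -/
def cat (M : ℕ) : SimpleGraph (Vx M) where
  Adj u v := dd (pos u) (lf u) (pos v) (lf v) = 1
  symm := ⟨by
    intro u v h
    unfold dd at *
    split_ifs at * <;> omega⟩
  loopless := ⟨by
    intro u h
    unfold dd at h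
    simp at h⟩

lemma lf_le {M : ℕ} (u : Vx M) : lf u ≤ 1 := by
  cases u <;> simp [lf]

lemma pos_lt {M : ℕ} (u : Vx M) : pos u < 8 * M := by
  cases u with
  | inl i => exact i.isLt
  | inr m =>
    have := m.isLt
    simp only [pos]
    omega

lemma ext' {M : ℕ} {u v : Vx M} (h1 : pos u = pos v) (h2 : lf u = lf v) : u = v := by
  cases u with
  | inl i =>
    cases v with
    | inl j => exact congrArg Sum.inl (Fin.ext h1)
    | inr m => simp [lf] at h2
  | inr m =>
    cases v with
    | inl j => simp [lf] at h2
    | inr m' =>
      simp only [pos] at h1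
      exact congrArg Sum.inr (Fin.ext (by omega))

lemma cat_table (M : ℕ) (u v : Vx M) :
    (cat M).Reachable u v ∧ (cat M).dist u v = dd (pos u) (lf u) (pos v) (lf v) := by
  apply table (D := fun u v => dd (pos u) (lf u) (pos v) (lf v))
  · intro u
    simp [dd]
  · intro u v w h
    change dd (pos v) (lf v) (pos w) (lf w) = 1 at h
    have h1 := lf_le u
    have h2 := lf_le v
    have h3 := lf_le w
    unfold dd at *
    split_ifs at * <;> omega
  · intro u v huv
    have h1 := lf_le u
    have h2 := lf_le v
    have hu := pos_lt u
    have hv := pos_lt v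
    by_cases hl : lf v = 1
    · refine ⟨Sum.inl ⟨pos v, hv⟩, ?_, ?_⟩
      · change dd (pos v) 0 (pos v) (lf v) = 1
        simp [dd, hl]
      · change dd (pos u) (lf u) (pos v) 0 + 1 = dd (pos u) (lf u) (pos v) (lf v)
        have h3 : pos u = pos v → lf u ≠ lf v := fun h h' => huv (ext' h h')
        unfold dd
        split_ifs with h
        · have := h3 h
          omega
        · omega
    · have hl0 : lf v = 0 := by omega
      rcases lt_trichotomy (pos u) (pos v) with h | h | h
      · refine ⟨Sum.inl ⟨pos v - 1, by omega⟩, ?_, ?_⟩
        · change dd (pos v - 1) 0 (pos v) (lf v) = 1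
          unfold dd
          split_ifs <;> omega
        · change dd (pos u) (lf u) (pos v - 1) 0 + 1 = dd (pos u) (lf u) (pos v) (lf v)
          unfold dd
          split_ifs <;> omega
      · have h3 : lf u ≠ lf v := fun h' => huv (ext' h h')
        refine ⟨u, ?_, ?_⟩
        · change dd (pos u) (lf u) (pos v) (lf v) = 1
          unfold dd
          rw [if_pos h]
          omega
        · change dd (pos u) (lf u) (pos u) (lf u) + 1 = dd (pos u) (lf u) (pos v) (lf v)
          unfold dd
          rw [if_pos h, if_pos rfl]
          omega
      · refine ⟨Sum.inl ⟨pos v + 1, by omega⟩, ?_, ?_⟩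
        · change dd (pos v + 1) 0 (pos v) (lf v) = 1
          unfold dd
          split_ifs <;> omega
        · change dd (pos u) (lf u) (pos v + 1) 0 + 1 = dd (pos u) (lf u) (pos v) (lf v)
          unfold dd
          split_ifs <;> omega

lemma cat_dist {M : ℕ} (u v : Vx M) :
    (cat M).dist u v = dd (pos u) (lf u) (pos v) (lf v) := (cat_table M u v).2

lemma cat_isTree {M : ℕ} (hM : 0 < M) : (cat M).IsTree := by
  refine ⟨?_, ?_⟩
  · have : Nonempty (Vx M) := ⟨Sum.inl ⟨0, by omega⟩⟩
    exact Connected.mk fun u v => (cat_table M u v).1
  · apply Q107.Bn.pointer_acyclic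
      (par := fun v => if lf v = 1 then Sum.inl ⟨pos v, pos_lt v⟩
        else Sum.inl ⟨pos v - 1, by have := pos_lt v; omega⟩)
      (rank := fun v => 2 * pos v + lf v)
    intro a b hab
    change dd (pos a) (lf a) (pos b) (lf b) = 1 at hab
    have ha := lf_le a
    have hb := lf_le b
    have key : ∀ x y : Vx M, dd (pos x) (lf x) (pos y) (lf y) = 1 →
        2 * pos y + lf y < 2 * pos x + lf x →
        (if lf x = 1 then Sum.inl ⟨pos x, pos_lt x⟩
        else Sum.inl ⟨pos x - 1, by have := pos_lt x; omega⟩ : Vx M) = y := by
      intro x y hxy hlt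
      have hx := lf_le x
      have hy := lf_le y
      split_ifs with h
      · apply ext'
        · change pos x = pos y
          unfold dd at hxy
          split_ifs at hxy <;> omega
        · change 0 = lf y
          unfold dd at hxy
          split_ifs at hxy <;> omega
      · apply ext'
        · change pos x - 1 = pos y
          unfold dd at hxy
          split_ifs at hxy <;> omega
        · change 0 = lf y
          unfold dd at hxy
          split_ifs at hxy <;> omega
    rcases lt_trichotomy (2 * pos b + lf b) (2 * pos a + lf a) with h | h | h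
    · exact Or.inl ⟨key a b hab h, h⟩
    · exfalso
      have : pos a = pos b ∧ lf a = lf b := by omega
      rw [ext' this.1 this.2] at hab
      simp [dd] at hab
    · refine Or.inr ⟨key b a ?_ h, h⟩
      unfold dd at *
      split_ifs at * <;> omega

end Q107.Cater
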